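import Pool.Agent.Helper67.BP.Nice
import Pool.Agent.Helper45.RK.Defs

/-!
# RK: the crude bound for groups with good solvable subgroups
-/

set_option autoImplicit false

namespace Pool.Agent.Helper4.RK

open Pool.Agent.Helper13.Ded Pool.Agent.Helper90.EE
open Pool.Agent.Helper20.CH (HPC_comp)
open Pool.Agent.Helper45.BP (CrudeT)
open Pool.Agent.Helper45.RK (GoodT CrudeGood)
open Pool.Agent.Helper67.BP (sol_step norm_sub_cav_le crude_pow re_le one_sub_cav)

/-- counting fixed points -/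
lemma sum_fix {T : Type*} [Group T] [Finite T] (S : Subgroup T) {K : ℕ} (f : T → ℝ) (h0 : ∀ x, 0 ≤ f x)
    (hK : ∀ x : T, f x ≠ 0 → Nat.card {q : T ⧸ S // x • q = q} ≤ K)
    (hc : ∀ g x, f (g * x * g⁻¹) = f x) :
    (Nat.card T : ℝ) * ∑ᶠ s : S, f s ≤ Nat.card S * K * ∑ᶠ x, f x := by
  classical
  have := Fintype.ofFinite T
  have := Fintype.ofFinite S
  rw [finsum_eq_sum_of_fintype, finsum_eq_sum_of_fintype]
  have e1 : (Nat.card T : ℝ) * ∑ s : S, f s = ∑ g : T, ∑ s : S, f (g * s * g⁻¹) := by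
    simp_rw [hc]
    rw [Finset.sum_const, nsmul_eq_mul, Finset.card_univ, Nat.card_eq_fintype_card]
  have e2 : ∀ g : T, ∑ s : S, f (g * s * g⁻¹) = ∑ x : T, if g⁻¹ * x * g ∈ S then f x else 0 := by
    intro g
    rw [← Finset.sum_filter]
    refine Finset.sum_bij (fun (s : S) _ => g * s * g⁻¹) ?_ ?_ ?_ ?_
    · intro s _
      rw [Finset.mem_filter]
      refine ⟨Finset.mem_univ _, ?_⟩
      have h2 : g⁻¹ * (g * (s : T) * g⁻¹) * g = s := by group
      rw [h2]
      exact s.2
    · intro s _ s' _ h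
      exact Subtype.ext (mul_left_cancel (mul_right_cancel h))
    · intro x hx
      rw [Finset.mem_filter] at hx
      exact ⟨⟨_, hx.2⟩, Finset.mem_univ _, by
        show g * (g⁻¹ * x * g) * g⁻¹ = x
        group⟩
    · intro s _
      rfl
  have e3 : ∀ x : T, ∑ g : T, (if g⁻¹ * x * g ∈ S then f x else 0) =
      (Nat.card (QuotientGroup.mk ⁻¹' {q : T ⧸ S | x • q = q}) : ℝ) * f x := by
    intro x
    rw [← Finset.sum_filter, Finset.sum_const, nsmul_eq_mul]
    congr 2
    rw [Nat.card_eq_fintype_card, Fintype.card_subtype]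
    congr 1
    ext g
    simp only [Finset.mem_filter, Finset.mem_univ, true_and]
    show _ ↔ x • (g : T ⧸ S) = g
    have h3 : x • (g : T ⧸ S) = ((x * g : T) : T ⧸ S) := rfl
    rw [h3, QuotientGroup.eq, mul_inv_rev]
    constructor
    · intro h
      have h4 := S.inv_mem h
      have h5 : (g⁻¹ * x * g)⁻¹ = g⁻¹ * x⁻¹ * g := by group
      rwa [h5] at h4
    · intro h
      have h4 := S.inv_mem h
      have h5 : (g⁻¹ * x⁻¹ * g)⁻¹ = g⁻¹ * x * g := by group
      rwa [h5] at h4
  rw [e1, Finset.sum_congr rfl fun g _ => e2 g, Finset.sum_comm, Finset.sum_congr rfl fun x _ => e3 x,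
    Finset.mul_sum]
  refine Finset.sum_le_sum fun x _ => ?_
  by_cases hx : f x = 0
  · rw [hx, mul_zero, mul_zero]
  · refine mul_le_mul_of_nonneg_right ?_ (h0 x)
    rw [QuotientGroup.card_preimage_mk]
    have h2 : Nat.card {q : T ⧸ S | x • q = q} ≤ K := hK x hx
    have h3 : Nat.card S * Nat.card {q : T ⧸ S | x • q = q} ≤ Nat.card S * K :=
      Nat.mul_le_mul_left _ h2
    exact_mod_cast h3

/-- the average over a good solvable subgroup -/
lemma cav_good {T : Type*} [Group T] [Finite T] (S : Subgroup T) (hS : Group.IsSolvable S) {K : ℕ}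
    (hK : 4 * Nat.card {x : S // K < Nat.card {q : T ⧸ S // (x : T) • q = q}} ≤ Nat.card S) {θ : T → ℂ}
    (hθ : HPC θ) : (θ 1 - cav (fun a : S => θ a)).re ≤ 2 * (K * (θ 1 - cav θ).re) := by
  classical
  have iT := Fintype.ofFinite T
  have iS := Fintype.ofFinite S
  set f : T → ℝ := fun x => (θ 1 - θ x).re with hf
  set fx : T → ℕ := fun x => Nat.card {q : T ⧸ S // x • q = q} with hfx
  set g : T → ℝ := fun x => if fx x ≤ K then f x else 0 with hg
  set μ := (θ 1 - cav (fun a : S => θ a)).re with hμ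
  have hf0 : ∀ x, 0 ≤ f x := fun x => by
    show 0 ≤ (θ 1 - θ x).re
    rw [Complex.sub_re]
    linarith [re_le hθ x]
  have hg0 : ∀ x, 0 ≤ g x := fun x => by
    show 0 ≤ if fx x ≤ K then f x else 0
    split_ifs
    · exact hf0 x
    · exact le_rfl
  have hgf : ∀ x, g x ≤ f x := fun x => by
    show (if fx x ≤ K then f x else 0) ≤ f x
    split_ifs
    · exact le_rfl
    · exact hf0 x
  have hfc : ∀ u x, f (u * x * u⁻¹) = f x := fun u x => by
    show (θ 1 - θ (u * x * u⁻¹)).re = _
    rw [hθ.conj]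
  have hfxc : ∀ u x, fx (u * x * u⁻¹) = fx x := by
    intro u x
    refine Nat.card_congr
      { toFun := fun q => ⟨u⁻¹ • q.1, ?_⟩
        invFun := fun q => ⟨u • q.1, ?_⟩
        left_inv := fun q => Subtype.ext (smul_inv_smul u q.1)
        right_inv := fun q => Subtype.ext (inv_smul_smul u q.1) }
    · have h1 := q.2
      calc x • u⁻¹ • q.1 = u⁻¹ • (u * x * u⁻¹) • q.1 := by
            rw [smul_smul, smul_smul]
            congr 1
            group
        _ = _ := by rw [h1]
    · have h1 := q.2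
      calc (u * x * u⁻¹) • u • q.1 = u • x • q.1 := by
            rw [smul_smul, smul_smul]
            congr 1
            group
        _ = _ := by rw [h1]
  have hgc : ∀ u x, g (u * x * u⁻¹) = g x := fun u x => by
    show (if fx (u * x * u⁻¹) ≤ K then f (u * x * u⁻¹) else 0) = if fx x ≤ K then f x else 0
    rw [hfc, hfxc]
  have h1 := sum_fix S g hg0 (fun x hx => by
    by_contra h
    exact hx (if_neg h)) hgc
  rw [finsum_eq_sum_of_fintype, finsum_eq_sum_of_fintype] at h1
  have h2 : ∑ x, g x ≤ (Nat.card T : ℝ) * (θ 1 - cav θ).re := by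
    rw [one_sub_cav θ (θ 1), finsum_eq_sum_of_fintype]
    exact Finset.sum_le_sum fun x _ => hgf x
  have hT : (0 : ℝ) < Nat.card T := by exact_mod_cast Nat.card_pos
  have hSc : (0 : ℝ) < Nat.card S := by exact_mod_cast Nat.card_pos
  have h3 : ∑ s : S, g s ≤ Nat.card S * (K * (θ 1 - cav θ).re) := by
    have h4 : (Nat.card T : ℝ) * ∑ s : S, g s ≤ Nat.card T * (Nat.card S * (K * (θ 1 - cav θ).re)) := by
      refine h1.trans ?_
      calc (Nat.card S : ℝ) * K * ∑ x, g x ≤ Nat.card S * K * (Nat.card T * (θ 1 - cav θ).re) :=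
            mul_le_mul_of_nonneg_left h2 (by positivity)
        _ = _ := by ring
    exact le_of_mul_le_mul_left h4 hT
  -- the bad elements
  have hμf : ∀ s : S, f s ≤ 2 * μ := by
    intro s
    have h4 := sol_step hθ S hS 1 (fun a ha => by simpa using ha) s s.2
    rw [one_mul, norm_sub_rev] at h4
    exact (Complex.re_le_norm _).trans h4
  have hμ0 : 0 ≤ μ := by
    have := (hf0 _).trans (hμf 1)
    linarith
  have h5 : ∑ s : S, f s = ∑ s : S, g s + ∑ s : S, (if K < fx s then f s else 0) := by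
    rw [← Finset.sum_add_distrib]
    refine Finset.sum_congr rfl fun s _ => ?_
    show f s = (if fx s ≤ K then f s else 0) + _
    by_cases h : fx s ≤ K
    · rw [if_pos h, if_neg (not_lt.2 h), add_zero]
    · rw [if_neg h, if_pos (not_le.1 h), zero_add]
  have h6 : ∑ s : S, (if K < fx s then f s else 0) ≤ Nat.card S * (μ / 2) := by
    rw [← Finset.sum_filter]
    refine (Finset.sum_le_sum fun s _ => hμf s).trans ?_
    rw [Finset.sum_const, nsmul_eq_mul]
    have h7 : (Finset.univ.filter fun s : S => K < fx s).card =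
        Nat.card {x : S // K < Nat.card {q : T ⧸ S // (x : T) • q = q}} := by
      rw [Nat.card_eq_fintype_card, Fintype.card_subtype]
    rw [h7]
    have h8 : (4 : ℝ) * Nat.card {x : S // K < Nat.card {q : T ⧸ S // (x : T) • q = q}} ≤ Nat.card S := by
      exact_mod_cast hK
    nlinarith
  have h9 := one_sub_cav (fun a : S => θ a) (θ 1)
  rw [finsum_eq_sum_of_fintype] at h9
  have h10 : (Nat.card S : ℝ) * μ ≤ Nat.card S * (K * (θ 1 - cav θ).re + μ / 2) := by
    calc (Nat.card S : ℝ) * μ = ∑ s : S, f s := h9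
      _ ≤ _ := by
        rw [h5, mul_add]
        exact add_le_add h3 h6
  have h11 := le_of_mul_le_mul_left h10 hSc
  linarith

/-- one factor -/
lemma crude_fst {T R : Type*} [Group T] [Group R] [Finite T] [Finite R] {K : ℕ}
    (hT : ∀ t : T, ∃ S : Subgroup T, Group.IsSolvable S ∧ t ∈ S ∧
      4 * Nat.card {x : S // K < Nat.card {q : T ⧸ S // (x : T) • q = q}} ≤ Nat.card S)
    (θ : T × R → ℂ) (hθ : HPC θ) (t : T) (ρ : R) :
    ‖θ (t, ρ) - cav (fun t : T => θ (t, ρ))‖ ≤
      8 * K * (θ 1 - cav (fun t : T => θ (t, 1))).re := by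
  have hT' := HPC_comp hθ (MonoidHom.inl T R)
  have h1 : ∀ t : T, ‖θ (t, ρ) - θ (1, ρ)‖ ≤ 4 * (K * (θ 1 - cav (fun t : T => θ (t, 1))).re) := by
    intro t
    obtain ⟨S, hs, htS, hfix⟩ := hT t
    let A := S.map (MonoidHom.inl T R)
    have hinj : Function.Injective (MonoidHom.inl T R) := fun a b h => congrArg Prod.fst h
    let e : S ≃* A := S.equivMapOfInjective _ hinj
    have hsA : Group.IsSolvable A :=
      Group.isSolvable_of_isSolvable_injective (f := e.symm.toMonoidHom) e.symm.injective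
    have h2 := sol_step hθ A hsA ((1 : T), ρ) (by
      rintro _ ⟨a, ha, rfl⟩
      refine ⟨a, ha, ?_⟩
      show ((a, 1) : T × R) = (1 * a * 1⁻¹, ρ * 1 * ρ⁻¹)
      rw [one_mul, inv_one, mul_one, mul_one, mul_inv_cancel]) (t, 1) ⟨t, htS, rfl⟩
    have h3 : ((1 : T), ρ) * (t, 1) = (t, ρ) := by
      rw [Prod.mk_mul_mk, one_mul, mul_one]
    rw [h3] at h2
    refine h2.trans ?_
    have h4 := cav_good S hs hfix hT'
    have h5 := cav_comp_equiv e.toEquiv (fun a : A => θ a)
    rw [← h5]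
    have h6 : 2 * (θ 1 - cav (fun p : S => θ (e.toEquiv p))).re ≤
        2 * (2 * (K * (θ 1 - cav (fun t : T => θ (t, 1))).re)) :=
      mul_le_mul_of_nonneg_left h4 (by norm_num)
    linarith
  refine norm_sub_cav_le _ _ _ fun t' => ?_
  have h2 := h1 t
  have h3 := h1 t'
  calc ‖θ (t, ρ) - θ (t', ρ)‖ = ‖(θ (t, ρ) - θ (1, ρ)) - (θ (t', ρ) - θ (1, ρ))‖ := by
        congr 1; ring
    _ ≤ _ := norm_sub_le _ _
    _ ≤ _ := by linarith

/-- **Crude** -/
theorem crudeGood : CrudeGood := fun _ _ _ _ h =>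
  crude_pow fun _ _ _ θ hθ t ρ => crude_fst h θ hθ t ρ

end Pool.Agent.Helper4.RK
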